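import Pool.Agent.H29.ChordalAssemble
import Pool.Agent.H59.ChordalLower
import Pool.Agent.H3.ChordalPEO

namespace Pool.Agent.Results.MP_968dab_co.SharpAsymptotics

open Filter Topology Pool.Agent.H29.Chordal

/-- The largest `L(2,1)`-number `F D` of a chordal graph of maximum degree `D` exists for every
`D`, and `F D` is asymptotic to `2 / (3 √3) * D ^ (3/2)`. -/
theorem result :
    ∃ F : ℕ → ℕ, (∀ D, IsGreatest (chordalLambdas D) (F D)) ∧
      Tendsto (fun D : ℕ => (F D : ℝ) / (D : ℝ) ^ (3 / 2 : ℝ)) atTop (𝓝 (2 / (3 * √3))) :=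
  assemble (fun _ G hG => Pool.Agent.H3.ChordalPEO.exists_peo G hG)
    Pool.Agent.H59.ChordalLower.exists_chordal Pool.Agent.H59.ChordalLower.lower

end Pool.Agent.Results.MP_968dab_co.SharpAsymptotics
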